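import Pool.Agent.helper72.ODK.Spec

set_option autoImplicit false

namespace Pool.Agent.helper72.UP

open Finset

theorem HAW_step (b j t : ℕ) (D : ℝ) (hD : 0 < D) (hb : b ≤ 2 * j + 1) (ht : (j : ℝ) + t + 1 ≤ D) :
    (b.choose (j + t + 1) : ℝ) ≤ b.choose (j + t) * Real.exp (-(2 * (t : ℝ) / D)) := by
  by_cases h : b ≤ j + t
  · have h0 : b.choose (j + t + 1) = 0 := Nat.choose_eq_zero_of_lt (by omega)
    rw [h0]
    have : (0 : ℝ) ≤ b.choose (j + t) * Real.exp (-(2 * (t : ℝ) / D)) := by positivity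
    simpa using this
  · push Not at h
    have h1 : b.choose (j + t + 1) * (j + t + 1) = b.choose (j + t) * (b - (j + t)) :=
      Nat.choose_succ_right_eq b (j + t)
    have h2 : (b.choose (j + t + 1) : ℝ) * ((j : ℝ) + t + 1) = b.choose (j + t) * ((b : ℝ) - ((j : ℝ) + t)) := by
      have h3 : ((b.choose (j + t + 1) * (j + t + 1) : ℕ) : ℝ) = ((b.choose (j + t) * (b - (j + t)) : ℕ) : ℝ) := by
        rw [h1]
      rw [Nat.cast_mul, Nat.cast_mul, Nat.cast_sub h.le] at h3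
      push_cast at h3
      exact h3
    have hpos : (0 : ℝ) < (j : ℝ) + t + 1 := by positivity
    have hbr : (b : ℝ) ≤ 2 * j + 1 := by exact_mod_cast hb
    have h4 : (b : ℝ) - ((j : ℝ) + t) ≤ ((j : ℝ) + t + 1) * (1 - 2 * (t : ℝ) / ((j : ℝ) + t + 1)) := by
      have : ((j : ℝ) + t + 1) * (1 - 2 * (t : ℝ) / ((j : ℝ) + t + 1)) = (j : ℝ) + t + 1 - 2 * t := by
        field_simp
      rw [this]
      linarith
    have h5 : 1 - 2 * (t : ℝ) / ((j : ℝ) + t + 1) ≤ Real.exp (-(2 * (t : ℝ) / D)) := by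
      have h6 : 2 * (t : ℝ) / D ≤ 2 * (t : ℝ) / ((j : ℝ) + t + 1) :=
        div_le_div_of_nonneg_left (by positivity) hpos ht
      have h7 := Real.add_one_le_exp (-(2 * (t : ℝ) / D))
      linarith
    have hc : (0 : ℝ) ≤ b.choose (j + t) := by positivity
    have h8 : (b.choose (j + t + 1) : ℝ) * ((j : ℝ) + t + 1) ≤
        (b.choose (j + t) * Real.exp (-(2 * (t : ℝ) / D))) * ((j : ℝ) + t + 1) := by
      rw [h2]
      calc (b.choose (j + t) : ℝ) * ((b : ℝ) - ((j : ℝ) + t))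
          ≤ b.choose (j + t) * (((j : ℝ) + t + 1) * (1 - 2 * (t : ℝ) / ((j : ℝ) + t + 1))) :=
            mul_le_mul_of_nonneg_left h4 hc
        _ ≤ b.choose (j + t) * (((j : ℝ) + t + 1) * Real.exp (-(2 * (t : ℝ) / D))) := by
            apply mul_le_mul_of_nonneg_left _ hc
            exact mul_le_mul_of_nonneg_left h5 hpos.le
        _ = _ := by ring
    exact le_of_mul_le_mul_right h8 hpos

theorem HAW_ind (b j Z : ℕ) (hb : b ≤ 2 * j + 1) (hZ : 1 ≤ Z) :
    ∀ T : ℕ, T ≤ Z → (b.choose (j + T) : ℝ) ≤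
      b.choose j * Real.exp (-((T : ℝ) * ((T : ℝ) - 1) / ((j : ℝ) + Z))) := by
  have hZr : (1 : ℝ) ≤ Z := by exact_mod_cast hZ
  have hD : (0 : ℝ) < (j : ℝ) + Z := by positivity
  intro T
  induction T with
  | zero => intro _; simp
  | succ T ih =>
    intro hT
    have h1 := ih (by omega)
    have hTr : (T : ℝ) + 1 ≤ Z := by exact_mod_cast hT
    have h2 := HAW_step b j T ((j : ℝ) + Z) hD hb (by linarith)
    have h3 : (b.choose (j + (T + 1)) : ℝ) ≤ b.choose (j + T) * Real.exp (-(2 * (T : ℝ) / ((j : ℝ) + Z))) := h2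
    have he : (0 : ℝ) ≤ Real.exp (-(2 * (T : ℝ) / ((j : ℝ) + Z))) := (Real.exp_pos _).le
    calc (b.choose (j + (T + 1)) : ℝ)
        ≤ b.choose (j + T) * Real.exp (-(2 * (T : ℝ) / ((j : ℝ) + Z))) := h3
      _ ≤ (b.choose j * Real.exp (-((T : ℝ) * ((T : ℝ) - 1) / ((j : ℝ) + Z)))) *
            Real.exp (-(2 * (T : ℝ) / ((j : ℝ) + Z))) := mul_le_mul_of_nonneg_right h1 he
      _ = b.choose j * Real.exp (-((((T + 1 : ℕ) : ℝ)) * (((T + 1 : ℕ) : ℝ) - 1) / ((j : ℝ) + Z))) := by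
          rw [mul_assoc, ← Real.exp_add]
          congr 2
          push_cast
          field_simp
          ring

theorem HAW : HAW_stmt := by
  intro b j h9 hb
  set z := Nat.sqrt b + 1 with hz
  have hz4 : 4 ≤ z := by
    have : 3 ≤ Nat.sqrt b := by
      rw [Nat.le_sqrt]
      omega
    omega
  have hzb : b < z * z := by
    have := Nat.lt_succ_sqrt b
    simpa [hz, Nat.succ_eq_add_one] using this
  by_cases hj : b < j
  · have h0 : b.choose j = 0 := Nat.choose_eq_zero_of_lt hj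
    have h1 : b.choose (j + 2 * z) = 0 := Nat.choose_eq_zero_of_lt (by omega)
    rw [h0, h1]
    simp
  · push Not at hj
    have h := HAW_ind b j (2 * z) hb (by omega) (2 * z) le_rfl
    have hzr : (4 : ℝ) ≤ z := by exact_mod_cast hz4
    have hzbr : (b : ℝ) < z * z := by exact_mod_cast hzb
    have hjr : (j : ℝ) ≤ b := by exact_mod_cast hj
    have hexp : Real.exp (-((((2 * z : ℕ) : ℝ)) * (((2 * z : ℕ) : ℝ) - 1) / ((j : ℝ) + ((2 * z : ℕ) : ℝ)))) ≤ 1 / 2 := by
      have h1 : (1 : ℝ) ≤ (((2 * z : ℕ) : ℝ)) * (((2 * z : ℕ) : ℝ) - 1) / ((j : ℝ) + ((2 * z : ℕ) : ℝ)) := by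
        rw [le_div_iff₀ (by positivity)]
        push_cast
        nlinarith
      have h2 : Real.exp (-((((2 * z : ℕ) : ℝ)) * (((2 * z : ℕ) : ℝ) - 1) / ((j : ℝ) + ((2 * z : ℕ) : ℝ)))) ≤
          Real.exp (-1) := Real.exp_le_exp.mpr (by linarith)
      have h3 : Real.exp (-1) ≤ 1 / 2 := by
        rw [Real.exp_neg]
        have h4 : (2 : ℝ) ≤ Real.exp 1 := by
          have := Real.add_one_le_exp (1 : ℝ)
          linarith
        rw [one_div]
        exact inv_anti₀ (by norm_num) h4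
      linarith
    calc (b.choose (j + 2 * z) : ℝ) ≤ _ := h
      _ ≤ b.choose j * (1 / 2) := mul_le_mul_of_nonneg_left hexp (by positivity)
      _ = b.choose j / 2 := by ring

end Pool.Agent.helper72.UP
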