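import Pool.Agent.helper72.ODK.Spec

set_option autoImplicit false

namespace Pool.Agent.helper72.UP

open Finset

theorem TAW_anti (a i : ℕ) (h : a ≤ 2 * i + 1) : a.choose (i + 1) ≤ a.choose i := by
  have h1 : a.choose (i + 1) * (i + 1) = a.choose i * (a - i) := Nat.choose_succ_right_eq a i
  have h2 : a.choose i * (a - i) ≤ a.choose i * (i + 1) := Nat.mul_le_mul_left _ (by omega)
  exact Nat.le_of_mul_le_mul_right (h1.le.trans h2) (by omega)

theorem TAW_anti' (a K : ℕ) (h : a ≤ 2 * K) : ∀ d i : ℕ, K ≤ i → a.choose (i + d) ≤ a.choose i := by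
  intro d
  induction d with
  | zero => intro i _; simp
  | succ d ih =>
    intro i hi
    exact (TAW_anti a (i + d) (by omega)).trans (ih i hi)

theorem TAW_tele (f : ℕ → ℝ) (K : ℕ) : ∀ d : ℕ, ∑ i ∈ Ico K (K + d), (f i - f (i + 1)) = f K - f (K + d) := by
  intro d
  induction d with
  | zero => simp
  | succ d ih =>
    rw [← Nat.add_assoc, Finset.sum_Ico_succ_top (by omega), ih]
    ring

theorem TAW : TAW_stmt := by
  intro a b K L ha hb hKL hLb
  have h1 : ∑ i ∈ Ico K (L + 1), (a.choose i : ℝ) * ((b.choose (i + 1) : ℝ) - b.choose (i + 2)) ≤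
      ∑ i ∈ Ico K b, (a.choose i : ℝ) * ((b.choose (i + 1) : ℝ) - b.choose (i + 2)) := by
    apply Finset.sum_le_sum_of_subset_of_nonneg
    · exact Finset.Ico_subset_Ico_right (by omega)
    · intro i hi _
      have hi' := (Finset.mem_Ico.mp hi).1
      have : (b.choose (i + 2) : ℝ) ≤ b.choose (i + 1) := by
        exact_mod_cast TAW_anti b (i + 1) (by omega)
      apply mul_nonneg (by positivity)
      linarith
  refine le_trans ?_ h1
  have h2 : ∑ i ∈ Ico K (L + 1), (a.choose L : ℝ) * ((b.choose (i + 1) : ℝ) - b.choose (i + 2)) ≤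
      ∑ i ∈ Ico K (L + 1), (a.choose i : ℝ) * ((b.choose (i + 1) : ℝ) - b.choose (i + 2)) := by
    apply Finset.sum_le_sum
    intro i hi
    have hi' := Finset.mem_Ico.mp hi
    have h3 : (b.choose (i + 2) : ℝ) ≤ b.choose (i + 1) := by
      exact_mod_cast TAW_anti b (i + 1) (by omega)
    have h4 : (a.choose L : ℝ) ≤ a.choose i := by
      have := TAW_anti' a K ha (L - i) i hi'.1
      rw [show i + (L - i) = L by omega] at this
      exact_mod_cast this
    apply mul_le_mul_of_nonneg_right h4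
    linarith
  refine le_trans (le_of_eq ?_) h2
  rw [← Finset.mul_sum]
  have h5 := TAW_tele (fun i => (b.choose (i + 1) : ℝ)) K (L + 1 - K)
  rw [show K + (L + 1 - K) = L + 1 by omega] at h5
  rw [show (∑ i ∈ Ico K (L + 1), ((b.choose (i + 1) : ℝ) - b.choose (i + 2))) = (b.choose (K + 1) : ℝ) - b.choose (L + 2) from h5]

end Pool.Agent.helper72.UP
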